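import Pool.Agent.H82.FP.Targets
import Pool.Agent.H82.G4.Targets3

/-!
MP_ee74d2_an, dimension 3 (`m = 2`): Lemma B. Level set estimate for the broad part of arrays of
functions with supports in small caps, with a gain which is a power of `A R / H`. The classes of
wave packets (amplitude, planks per tube, shading) are common to all the caps; a common one-ended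
class is localized without loss, for a common two-ended class the four-linear estimate `B2` is used.
-/

set_option autoImplicit false

namespace Pool.Agent.H82.LB

open MeasureTheory Set
open Pool.Agent.H83.G
open Pool.Agent.H22.G4 (nv Ind)
open scoped ENNReal NNReal RealInnerProductSpace

/-! ### broad arrays -/

/-- the array `u` is broad up to `n` circles: for all `n` circles (zero sets of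
`η ↦ ph (nv η) (V j)`: circles, lines, points, or empty) there is an entry of modulus at least `h`
whose centre is at distance at least `1/K` of all of them -/
def Brm {ι : Type} (K : ℝ) (n : ℕ) (h : ℝ) (I : Finset ι) (c : ι → E 2) (u : ι → ℂ) : Prop :=
  ∀ V : Fin n → Z 2, (∀ j, ‖V j‖ = 1) →
    ∃ k ∈ I, h ≤ ‖u k‖ ∧ ∀ j η, ph (nv η) (V j) = 0 → K⁻¹ ≤ ‖c k - η‖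

/-- BRM: monotonicity -/
def T_BRM : Prop := ∀ (ι : Type) (K h h' : ℝ) (n n' : ℕ) (I : Finset ι) (c : ι → E 2)
  (u u' : ι → ℂ), 1 ≤ n' → n' ≤ n → h' ≤ h → (∀ k ∈ I, ‖u k‖ ≤ ‖u' k‖) →
  Brm K n h I c u → Brm K n' h' I c u'

/-- BRS: subadditivity -/
def T_BRS : Prop := ∀ (ι Λ : Type) (K h : ℝ) (n : ℕ) (I : Finset ι) (c : ι → E 2)
  (Lab : Finset Λ) (u : ι → ℂ) (v : Λ → ι → ℂ), 0 < h →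
  (∀ k ∈ I, ‖u k - ∑ l ∈ Lab, v l k‖ ≤ h / 2) → Brm K (n * Lab.card) h I c u →
  ∃ l ∈ Lab, Brm K n (h / (2 * Lab.card)) I c (v l)

/-- BR1: four transversal entries -/
def T_BR1 : Prop := ∃ C : ℝ, 1 ≤ C ∧ ∀ (ι : Type) (K h : ℝ) (n : ℕ) (I : Finset ι)
  (c : ι → E 2) (u : ι → ℂ), 1 ≤ K → 1 ≤ n → (∀ k ∈ I, ‖c k‖ ≤ 12) → Brm K n h I c u →
  ∃ k : Fin 4 → ι, (∀ i, k i ∈ I ∧ h ≤ ‖u (k i)‖) ∧ Ind (C * K ^ 4)⁻¹ fun i => c (k i)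

/-! ### the statement -/

/-- arrays of functions with supports in the caps of radius `(1 + κ) ρ` -/
def Arr {ι : Type} (L : ℕ) (κ R A ρ : ℝ) (I : Finset ι) (c : ι → E 2) (G : ι → Z 2 → ℂ) : Prop :=
  ∀ k ∈ I, Cls L κ R A (G k) ∧ ∀ ζ, G k ζ ≠ 0 → ‖ζ.1⁻¹ • ζ.2.1 - c k‖ ≤ (1 + κ) * ρ

/-- the level set estimate for broad arrays of at most `M` functions, with constant `g`, for all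
`H ≤ A R / Λ` -/
def BdB (L : ℕ) (κ R Λ K ρ M : ℝ) (n : ℕ) (g : ℝ) : Prop :=
  ∀ (ι : Type) (I : Finset ι) (c : ι → E 2) (A H : ℝ) (G : ι → Z 2 → ℂ) (X : Finset (Z 2)),
  0 < A → 0 < H → Λ * H ≤ A * R → (I.card : ℝ) ≤ M → (∀ k ∈ I, ‖c k‖ ≤ 11) →
  Arr L κ R A ρ I c G → Sep X → (∀ z ∈ X, Brm K n H I c fun k => TF (G k) z) →
  (X.card : ℝ) * H ^ (10 / 3 : ℝ) ≤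
    g * A ^ (4 / 3 : ℝ) * R ^ (1 / 3 : ℝ) * ∑ k ∈ I, ∫ ζ, ‖G k ζ‖ ^ 2

/-! ### one ball of radius `R` -/

/-- SSCc: stability of the class under localized sub-sums, with the supports in the caps -/
def T_SSCc : Prop := ∀ (m L : ℕ) (β : E m → ℂ) (Ψ Ξ : Z m → ℂ) (ψ χ : Z m → ℝ) (δ δ' : ℝ),
  IsPU β → IsPsi Ψ ψ → IsLow Ξ χ → 0 < δ → δ ≤ 1 / 4 → 0 < δ' → 2 * m + 6 ≤ L →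
  ∃ C : ℝ, 1 ≤ C ∧ ∀ (κ R r A : ℝ) (G : Z m → ℂ) (S : Finset (Pk m)) (z₁ : Z m), 0 ≤ κ →
  κ ≤ 3 / 8 → 1 ≤ R → C ≤ R ^ δ → Real.sqrt R ≤ r → r ≤ R / C → 0 < A → Cls L κ R A G →
  ∃ G' : Z m → ℂ, Cls L (κ + C * R ^ (-δ)) r (C * R ^ δ' * A * (R / r) ^ ((m : ℝ) / 2)) G' ∧
  (∀ z, TF G' z = (χ (r⁻¹ • (z - z₁)) : ℂ) * ∑ W ∈ S, Fp β ψ R δ G W z) ∧
  ∀ ζ, G' ζ ≠ 0 → ∃ W ∈ S, ‖ζ.1⁻¹ • ζ.2.1 - ctr (sR R) W.1‖ ≤ 2 * sR R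

/-- OENB: one end, arrays -/
def T_OENB : Prop := ∀ (L N : ℕ) (β : E 2 → ℂ) (Ψ Ξ : Z 2 → ℂ) (ψ χ : Z 2 → ℝ) (δ ε₀ : ℝ),
  IsPU β → IsPsi Ψ ψ → IsLow Ξ χ → 0 < δ → δ ≤ 1 / 4 → 0 < ε₀ → ε₀ ≤ 1 / 2 → 10 ≤ L → 10 ≤ N →
  ∃ C : ℝ, 1 ≤ C ∧ ∀ (κ R A H g Λ K ρ M : ℝ) (n : ℕ) (ι : Type) (I : Finset ι) (c : ι → E 2)
  (G : ι → Z 2 → ℂ) (S : ι → Finset (Pk 2)) (QQ : Finset (Zi 2)) (l k : ℕ) (X : Finset (Z 2)),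
  0 ≤ κ → κ ≤ 3 / 8 → 1 ≤ R → C ≤ R ^ δ → C ≤ R ^ ε₀ → 0 < A → 0 < H → 0 ≤ g →
  C * sR R ≤ R ^ (-δ) * ρ → Λ * H ≤ A * R → (I.card : ℝ) ≤ M → (∀ k ∈ I, ‖c k‖ ≤ 11) →
  BdB L (κ + C * R ^ (-δ)) (R ^ (1 - ε₀)) Λ K ρ M n g → Arr L κ R A ρ I c G → Sep X →
  (∀ j ∈ I, ∀ W ∈ S j, W.1 ∈ Ks 2 (sR R) ∧ ‖ctr (sR R) W.1 - c j‖ ≤ (1 + κ) * ρ + sR R) →
  (∀ z ∈ X, cb (Real.sqrt R) z ∈ QQ ∧ Brm K n H I c fun j =>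
    ∑ W ∈ SB QQ R (R ^ (1 - ε₀)) δ l k (S j) (bl R (R ^ (1 - ε₀)) (cb (Real.sqrt R) z)),
      Fp β ψ R δ (G j) W z) →
  (X.card : ℝ) * H ^ (10 / 3 : ℝ) ≤ C * R ^ (2 * lo 2 * δ) * 2 ^ k * g * A ^ (4 / 3 : ℝ) *
    R ^ (1 / 3 : ℝ) * ∑ j ∈ I, ∑ W ∈ S j, al N β R δ (G j) W ^ 2 * R ^ 2

open scoped Classical in
/-- LB1: a common class of amplitudes and of numbers of planks per tube -/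
def T_LB1 : Prop := ∀ (ι α β γ : Type) (K : ℝ) (n p : ℕ) (I : Finset ι) (c : ι → E 2)
  (S : ι → Finset α) (X : Finset β) (f : ι → α → β → ℂ) (al : ι → α → ℝ) (tb : α → γ)
  (a₀ H : ℝ), 0 < a₀ → 0 < H → 1 ≤ p → (∀ j ∈ I, (S j).card ≤ 2 ^ p) →
  (∀ j ∈ I, ∀ W ∈ S j, al j W ≤ 2 ^ p * a₀) →
  (∀ z ∈ X, ∀ j ∈ I, ∀ S' ⊆ S j, (∀ W ∈ S', al j W ≤ a₀) → ∑ W ∈ S', ‖f j W z‖ ≤ H / 2) →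
  (∀ z ∈ X, Brm K (n * (4 * p ^ 2)) H I c fun j => ∑ W ∈ S j, f j W z) →
  ∃ (S' : ι → Finset α) (X' : Finset β) (a : ℝ) (b : ℕ), (∀ j, S' j ⊆ S j) ∧ X' ⊆ X ∧
    a₀ ≤ a ∧ 1 ≤ b ∧ X.card ≤ 4 * p ^ 2 * X'.card ∧
    (∀ z ∈ X', Brm K n (H / (8 * (p : ℝ) ^ 2)) I c fun j => ∑ W ∈ S' j, f j W z) ∧
    (∀ j ∈ I, ∀ W ∈ S' j, a ≤ al j W ∧ al j W ≤ 2 * a) ∧
    ∀ j ∈ I, ∀ W ∈ S' j, b ≤ ((S' j).filter (fun W' => tb W' = tb W)).card ∧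
      ((S' j).filter (fun W' => tb W' = tb W)).card ≤ 2 * b

/-- LB3: a common shading class -/
def T_LB3 : Prop := ∀ (ι : Type) (K : ℝ) (n p : ℕ) (R r δ H : ℝ) (QQ : Finset (Zi 2))
  (I : Finset ι) (c : ι → E 2) (S : ι → Finset (Pk 2)) (X : Finset (Z 2))
  (f : ι → Pk 2 → Z 2 → ℂ), 0 < H → QQ.card ≤ 2 ^ p → (∀ z ∈ X, cb (Real.sqrt R) z ∈ QQ) →
  (∀ z ∈ X, ∀ j ∈ I, ∀ S' ⊆ S j, (∀ W ∈ S', ¬ Inc R δ (tb R W) (cb (Real.sqrt R) z)) →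
    ∑ W ∈ S', ‖f j W z‖ ≤ H / 2) →
  (∀ z ∈ X, Brm K (n * (p + 1) ^ 2) H I c fun j => ∑ W ∈ S j, f j W z) →
  ∃ (l k : ℕ) (X' : Finset (Z 2)), X' ⊆ X ∧ X.card ≤ (p + 1) ^ 2 * X'.card ∧
    ∀ z ∈ X', Brm K n (H / (2 * ((p : ℝ) + 1) ^ 2)) I c fun j =>
      ∑ W ∈ SB QQ R r δ l k (S j) (bl R r (cb (Real.sqrt R) z)), f j W z

/-- the estimate B2 with given constants: four transversal functions, a common two-ended class.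
`P ≤ R^ε₀` measures the transversality -/
def B2q (ε₀ c₀ δ₀ : ℝ) (L₀ : ℕ) : Prop :=
  ∀ (L : ℕ) (β : E 2 → ℂ) (Ψ : Z 2 → ℂ) (ψ : Z 2 → ℝ) (δ b₀ B : ℝ),
  L₀ ≤ L → IsPU β → IsPsi Ψ ψ → 0 < δ → δ ≤ δ₀ → 0 < b₀ → 1 ≤ B → ∃ N₀ : ℕ, ∀ N : ℕ, N₀ ≤ N →
  ∃ C : ℝ, 1 ≤ C ∧ ∀ (κ R P A H En : ℝ) (G : Fin 4 → Z 2 → ℂ) (c : Fin 4 → E 2) (z₀ : Z 2)
  (S : Fin 4 → Finset (Pk 2)) (a b : ℝ) (l k : ℕ) (QQ : Finset (Zi 2)) (ν : ℝ)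
  (X : Finset (Z 2)), 0 ≤ κ → κ ≤ 3 / 8 → 1 ≤ R → C ≤ R ^ δ → 1 ≤ P → P ≤ R ^ ε₀ → 0 < A →
  0 < H → b₀ * A ≤ R ^ δ * H → 0 < En → (∀ i, Cls L κ R A (G i)) → (∀ i, ‖c i‖ ≤ 12) →
  Ind P⁻¹ c → Sep X → (∀ z ∈ X, ‖z - z₀‖ ≤ R) →
  (∀ i, ∀ W ∈ S i, W.1 ∈ Ks 2 (sR R) ∧ (∃ z, ‖z - z₀‖ ≤ R ∧ near R δ W z) ∧
    ‖ctr (sR R) W.1‖ ≤ 3 ∧ ‖ctr (sR R) W.1 - c i‖ ≤ 1 / (400 * P) ∧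
    a ≤ al N β R δ (G i) W ∧ al N β R δ (G i) W ≤ 2 * a) →
  (∀ i, ((S i).card : ℝ) ≤ B * R ^ (8 : ℝ)) → 0 < a → 1 ≤ b →
  (∀ i, ∀ W ∈ S i, b ≤ (((S i).filter (fun W' => tb R W' = tb R W)).card : ℝ) ∧
    (((S i).filter (fun W' => tb R W' = tb R W)).card : ℝ) ≤ 2 * b) →
  (∀ i, ∑ W ∈ S i, al N β R δ (G i) W ^ 2 * R ^ 2 ≤ En) →
  En ≤ B * R ^ (lo 2 * δ) * (A ^ 2 * R ^ (4 : ℝ)) →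
  0 < ν → ν * QQ.card ≤ R ^ ε₀ * X.card →
  (∀ q, ((X.filter (fun z => cb (Real.sqrt R) z = q)).card : ℝ) ≤ 2 * ν) →
  (∀ z ∈ X, cb (Real.sqrt R) z ∈ QQ) → (∀ q ∈ QQ, ‖Real.sqrt R • zc q - z₀‖ ≤ 4 * R) →
  C ≤ (2 : ℝ) ^ k →
  (∀ z ∈ X, ∀ i, H ≤ ‖∑ W ∈ SB QQ R (R ^ (1 - ε₀)) δ l k (S i)
    (bl R (R ^ (1 - ε₀)) (cb (Real.sqrt R) z)), Fp β ψ R δ (G i) W z‖) →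
  (X.card : ℝ) * H ^ (10 / 3 : ℝ) ≤
    C * R ^ (-c₀) * A ^ (4 / 3 : ℝ) * R ^ (1 / 3 : ℝ) * En

/-- B2 -/
def T_B2 : Prop := ∃ (ε₀ c₀ δ₀ : ℝ) (L₀ : ℕ), 0 < ε₀ ∧ ε₀ ≤ 1 / 100 ∧ 0 < c₀ ∧ c₀ ≤ 1 / 100 ∧
  0 < δ₀ ∧ δ₀ ≤ 1 / 100 ∧ B2q ε₀ c₀ δ₀ L₀

/-- BALL: one ball of radius `R` -/
def T_BALL : Prop := ∃ C₁ : ℝ, 1 ≤ C₁ ∧
  ∀ (ε₀ c₀ δ₀ : ℝ) (L₀ L : ℕ) (β : E 2 → ℂ) (δ ε₁ : ℝ), 0 < ε₀ → ε₀ ≤ 1 / 100 → 0 < c₀ →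
  c₀ ≤ 1 / 100 → δ₀ ≤ 1 / 100 → B2q ε₀ c₀ δ₀ L₀ → L₀ ≤ L → 10 ≤ L →
  IsPU β → 0 < δ → δ ≤ δ₀ → 0 < ε₁ → ∃ C : ℝ, 1 ≤ C ∧
  ∀ (κ R Λ K ρ M g A H : ℝ) (n n₁ : ℕ) (ι : Type) (I : Finset ι) (c : ι → E 2)
  (G : ι → Z 2 → ℂ) (z₀ : Z 2) (X : Finset (Z 2)), 0 ≤ κ → κ ≤ 3 / 8 → C ≤ R → 1 ≤ K → 0 < ρ →
  1 ≤ M → 0 ≤ g → 0 < A → A ≤ H → C * K ^ 4 ≤ R ^ ε₀ → C₁ * K ^ 4 * ρ ≤ 1 → C * M ^ 8 ≤ R ^ ε₀ →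
  C * M ^ 8 ≤ R ^ (c₀ / 4) → C * sR R ≤ R ^ (-δ) * ρ → 1 ≤ n₁ → C * R ^ ε₁ * n₁ ≤ n →
  BdB L (κ + C * R ^ (-δ)) (R ^ (1 - ε₀)) Λ K ρ M n₁ g →
  Λ * H ≤ A * R → (I.card : ℝ) ≤ M → (∀ k ∈ I, ‖c k‖ ≤ 11) → Arr L κ R A ρ I c G → Sep X →
  (∀ z ∈ X, ‖z - z₀‖ ≤ R) → (∀ z ∈ X, Brm K n H I c fun k => TF (G k) z) →
  (X.card : ℝ) * H ^ (10 / 3 : ℝ) ≤
    C * (R ^ (ε₁ + lb 2 * δ) * g + R ^ (lb 2 * δ - c₀ / 2)) * A ^ (4 / 3 : ℝ) *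
      R ^ (1 / 3 : ℝ) * (∑ k ∈ I, Er 5 β R δ (G k) z₀).toReal

/-! ### all scales -/

/-- BASB: the trivial bound -/
def T_BASB : Prop := ∀ (L : ℕ), ∃ C : ℝ, 0 < C ∧ ∀ (κ R Λ K ρ M : ℝ) (n : ℕ), 0 ≤ κ → κ ≤ 1 / 2 →
  1 ≤ R → 1 ≤ Λ → BdB L κ R Λ K ρ M n (C * R * Λ ^ (-(4 / 3) : ℝ))

/-- BASH: the trivial bound for `H ≤ A` -/
def T_BASH : Prop := ∀ (L : ℕ), ∃ C : ℝ, 0 < C ∧ ∀ (κ R K ρ A H : ℝ) (n : ℕ) (ι : Type)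
  (I : Finset ι) (c : ι → E 2) (G : ι → Z 2 → ℂ) (X : Finset (Z 2)), 0 ≤ κ → κ ≤ 1 / 2 → 1 ≤ R →
  0 < A → 0 < H → H ≤ A → Arr L κ R A ρ I c G → Sep X →
  (∀ z ∈ X, Brm K n H I c fun k => TF (G k) z) →
  (X.card : ℝ) * H ^ (10 / 3 : ℝ) ≤ C * A ^ (4 / 3 : ℝ) * ∑ k ∈ I, ∫ ζ, ‖G k ζ‖ ^ 2

/-- SUMB: the recursion -/
def T_SUMB : Prop := ∃ C₁ : ℝ, 1 ≤ C₁ ∧ ∀ (ε₀ c₀ δ₀ : ℝ) (L₀ L : ℕ) (δ ε₁ : ℝ), 0 < ε₀ →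
  ε₀ ≤ 1 / 100 → 0 < c₀ → c₀ ≤ 1 / 100 → δ₀ ≤ 1 / 100 → B2q ε₀ c₀ δ₀ L₀ → L₀ ≤ L → 10 ≤ L →
  0 < δ → δ ≤ δ₀ → 0 < ε₁ →
  ∃ C : ℝ, 1 ≤ C ∧ ∀ (κ R Λ K ρ M g : ℝ) (n n₁ : ℕ), 0 ≤ κ → κ ≤ 3 / 8 → C ≤ R → 1 ≤ K →
  0 < ρ → 1 ≤ M → 0 ≤ g → C * K ^ 4 ≤ R ^ ε₀ → C₁ * K ^ 4 * ρ ≤ 1 → C * M ^ 8 ≤ R ^ ε₀ →
  C * M ^ 8 ≤ R ^ (c₀ / 4) → C * sR R ≤ R ^ (-δ) * ρ → 1 ≤ n₁ → C * R ^ ε₁ * n₁ ≤ n →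
  BdB L (κ + C * R ^ (-δ)) (R ^ (1 - ε₀)) Λ K ρ M n₁ g →
  BdB L κ R Λ K ρ M n (C * (R ^ (ε₁ + 2 * lb 2 * δ) * g + R ^ (2 * lb 2 * δ - c₀ / 2)))

/-- LEMB: Lemma B for arrays -/
def T_LEMB : Prop := ∃ (cb₀ C₁ : ℝ) (L₀ : ℕ), 0 < cb₀ ∧ 1 ≤ C₁ ∧ ∀ L : ℕ, L₀ ≤ L →
  ∀ ε : ℝ, 0 < ε → ∃ δ₁ C : ℝ, 0 < δ₁ ∧ 0 < C ∧ ∀ (R Λ K ρ M : ℝ) (n : ℕ), 1 ≤ R → 1 ≤ K →
  0 < ρ → 1 ≤ M → (C₁ * K * M) ^ C₁ ≤ Λ → C₁ * K ^ 4 * ρ ≤ 1 → Λ ^ (-(1 / 8) : ℝ) ≤ ρ →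
  R ^ δ₁ ≤ n → BdB L (1 / 4) R Λ K ρ M n (C * R ^ ε * Λ ^ (-cb₀))

/-- CPU: pieces in caps of any radius stay in the class, with a uniform constant -/
def T_CPU : Prop := ∀ (m L : ℕ) (β : E m → ℂ), IsPU β → m + 3 ≤ L → ∃ C : ℝ, 1 ≤ C ∧
  ∀ (κ R A σ : ℝ) (G : Z m → ℂ) (c : E m), 0 ≤ κ → κ ≤ 1 / 2 → 1 ≤ R → 0 < A → 0 < σ →
  Cls L κ R A G → Cls L κ R (C * A) (fun ζ => cp β c σ ζ * G ζ)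

/-- LEMF: Lemma B for functions; caps of radius `1/(C₁ K⁴)` -/
def T_LEMF : Prop := ∃ (cb₀ C₁ : ℝ) (L₀ : ℕ), 0 < cb₀ ∧ 1 ≤ C₁ ∧ ∀ (L : ℕ) (β : E 2 → ℂ),
  L₀ ≤ L → IsPU β → ∀ ε : ℝ, 0 < ε → ∃ δ₁ C : ℝ, 0 < δ₁ ∧ 0 < C ∧
  ∀ (R Λ K A H : ℝ) (n : ℕ) (G : Z 2 → ℂ) (X : Finset (Z 2)), 1 ≤ R → 1 ≤ K →
  (C₁ * K) ^ C₁ ≤ Λ → R ^ δ₁ ≤ n → 0 < A → 0 < H → Λ * H ≤ A * R → Cls L (1 / 4) R A G → Sep X →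
  (∀ z ∈ X, Brm K n H (Ks 2 (C₁ * K ^ 4)⁻¹) (ctr (C₁ * K ^ 4)⁻¹)
    fun k => TP β (ctr (C₁ * K ^ 4)⁻¹ k) (C₁ * K ^ 4)⁻¹ G z) →
  (X.card : ℝ) * H ^ (10 / 3 : ℝ) ≤
    C * R ^ ε * Λ ^ (-cb₀) * A ^ (4 / 3 : ℝ) * R ^ (1 / 3 : ℝ) * ∫ ζ, ‖G ζ‖ ^ 2

end Pool.Agent.H82.LB
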