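import Pool.Agent.H82.LB.Targets
import Pool.Agent.H82.G4.Targets3

/-!
MP_ee74d2_an, dimension 3 (`m = 2`): Lemma B at a node of the chain, in terms of the weighted
suprema `aw` of the pieces in the caps of radius `K^{-6}` over the cells of side `K^{12}`.
-/

set_option autoImplicit false

namespace Pool.Agent.H82.LB

open MeasureTheory Set
open Pool.Agent.H83.G
open Pool.Agent.H82.G4 (aw uk)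
open scoped ENNReal NNReal RealInnerProductSpace

/-- the circle (or line, point, empty set) with the coefficients `V` -/
def CirZ (V : Z 2) : Set (E 2) := {η | V.1 + ⟪V.2.1, η⟫ + V.2.2 * ‖η‖ ^ 2 = 0}

/-- the point `z` is narrow: all the significant caps of radius `K^{-6}` near `z` are in the
`1/K`-neighbourhoods of `n` circles -/
def Nar (β : E 2 → ℂ) (N : ℕ) (K : ℝ) (n : ℕ) (H : ℝ) (G : Z 2 → ℂ) (z : Z 2) : Prop :=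
  ∃ V : Fin n → Z 2, (∀ j, V j ≠ 0) ∧ ∀ k ∈ Ks 2 (K ^ 6)⁻¹,
    ENNReal.ofReal (K ^ (-100 : ℤ) * H) ≤ aw N (K ^ 6) 0 (uk β (K ^ 6) G k) (cb ((K ^ 6) ^ 2) z) →
    ∃ j, ∃ η ∈ CirZ (V j), ‖ctr (K ^ 6)⁻¹ k - η‖ ≤ K⁻¹

/-- T43: the estimate at the exponent `10/3` with a loss `R^ε` -/
def T_T43 : Prop := ∀ (L : ℕ) (ε : ℝ), 10 ≤ L → 0 < ε → ∃ C : ℝ, 0 < C ∧
  ∀ (R A H : ℝ) (G : Z 2 → ℂ) (X : Finset (Z 2)), 1 ≤ R → 0 < A → 0 < H → Cls L (1 / 4) R A G →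
  Sep X → (∀ z ∈ X, H ≤ ‖TF G z‖) →
  (X.card : ℝ) * H ^ (10 / 3 : ℝ) ≤
    C * R ^ ε * A ^ (4 / 3 : ℝ) * R ^ (1 / 3 : ℝ) * ∫ ζ, ‖G ζ‖ ^ 2

/-- LEMN: Lemma B at a node -/
def T_LEMN : Prop := ∃ (cb₀ C₁ : ℝ) (L₀ : ℕ), 0 < cb₀ ∧ cb₀ ≤ 1 / 12 ∧ 1 ≤ C₁ ∧
  ∀ (L : ℕ) (β : E 2 → ℂ), L₀ ≤ L → IsPU β → ∀ ε : ℝ, 0 < ε → ∃ δ₁ : ℝ, 0 < δ₁ ∧ δ₁ ≤ ε ∧
  ∃ N₀ : ℕ, ∀ N : ℕ, N₀ ≤ N → ∃ C : ℝ, 0 < C ∧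
  ∀ (R Λ K A H : ℝ) (n : ℕ) (G : Z 2 → ℂ) (X : Finset (Z 2)), 1 ≤ R → C₁ ≤ K → K ^ C₁ ≤ Λ →
  R ^ δ₁ ≤ n → 0 < A → 0 < H → Λ * H ≤ A * R → Cls L (1 / 4) R A G → Sep X →
  (∀ z ∈ X, ¬ Nar β N K n H G z) →
  (X.card : ℝ) * H ^ (10 / 3 : ℝ) ≤
    C * R ^ ε * Λ ^ (-cb₀) * A ^ (4 / 3 : ℝ) * R ^ (1 / 3 : ℝ) * ∫ ζ, ‖G ζ‖ ^ 2

end Pool.Agent.H82.LB
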