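import Pool.Agent.H83.G.Chain
import Pool.Agent.H68.G.GBE
import Pool.Agent.H74.LB.BALL
import Pool.Agent.H11.LB.BASB
import Pool.Agent.H17.LB.BASH
import Pool.Agent.H67.LB.BR1
import Pool.Agent.H14.LB.BRM
import Pool.Agent.H14.LB.BRS
import Pool.Agent.H86.LB.CPU
import Pool.Agent.H68.LB.LB1
import Pool.Agent.H19.LB.LB3
import Pool.Agent.H19.LB.OENB
import Pool.Agent.H19.LB.SSCc
import Pool.Agent.H89.LB.SUMB

/-! MP_ee74d2_an, dimension 3 (`m = 2`), Lemma B: the chain up to the recursion. -/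

set_option autoImplicit false

namespace Pool.Agent.H82.LB.Chain

open Pool.Agent.H83.G Pool.Agent.H83.G.Chain Pool.Agent.H82.LB

theorem b_GBE : T_GBE :=
  Pool.Agent.H68.G.GBE.pf_GBE m_PKT m_PLN m_PTW m_WT3 m_PUS m_LOI m_SCH

theorem b_BRM : T_BRM := Pool.Agent.H14.LB.pf_BRM

theorem b_BRS : T_BRS := Pool.Agent.H14.LB.pf_BRS

theorem b_BR1 : T_BR1 := Pool.Agent.H67.LB.pf_BR1

theorem b_CPU : T_CPU := Pool.Agent.H86.LB.pf_CPU m_KER m_PUB m_CPS m_WT2 m_SCH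

theorem b_LB1 : T_LB1 := Pool.Agent.H68.LB.pf_LB1 b_BRS b_BRM

theorem b_LB3 : T_LB3 := Pool.Agent.H19.LB.LB3.pf_LB3 b_BRS

theorem b_SSCc : T_SSCc := Pool.Agent.H19.LB.SSCc.pf_SSCc m_PKT m_SSA m_SSB

theorem b_OENB : T_OENB := Pool.Agent.H19.LB.OENB.pf_OENB b_SSCc b_GBE m_AMU m_PLN

theorem b_BALL : T_BALL := Pool.Agent.H74.LB.BALL.pf_BALL m_DCP m_TLS m_AMU m_AEN m_ENB m_PG2
  b_LB1 b_LB3 b_OENB b_BR1 b_BRM m_PSX m_LWX m_CBN m_WT3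

theorem b_BASB : T_BASB := Pool.Agent.H11.LB.pf_BASB m_SPW m_PLN

theorem b_BASH : T_BASH := Pool.Agent.H17.LB.BASH.pf_BASH m_SPW m_PLN

theorem b_SUMB : T_SUMB := Pool.Agent.H89.LB.pf_SUMB b_BALL b_BASH m_ENS m_PUX m_WT3

end Pool.Agent.H82.LB.Chain
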