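import Pool.Agent.H82.LB.Chain0
import Pool.Agent.H82.LB.LEMB2
import Pool.Agent.H82.G4.Chain4
import Pool.Agent.H82.G4.Fin4
import Pool.Agent.H94.M4.Chain
import Pool.Agent.H22.G4.BAS
import Pool.Agent.H1.LB.LNT
import Pool.Agent.H67.LB.T43
import Pool.Agent.H27.LB.LNA
import Pool.Agent.H34.LB.LEMN

/-! MP_ee74d2_an, dimension 3 (`m = 2`): Lemma B at a node from the estimate B2. -/

set_option autoImplicit false

namespace Pool.Agent.H82.LB.Chain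

open Pool.Agent.H83.G Pool.Agent.H83.G.Chain Pool.Agent.H82.LB Pool.Agent.H82.G4.Chain

theorem b_LEMB2 (hB2 : T_B2) : T_LEMB2 := Pool.Agent.H82.LB.LB2.pf_LEMB2 hB2 b_SUMB b_BASB

theorem b_LNT : T_LNT := Pool.Agent.H1.LB.pf_LNT k_SXF m_SPW m_PLN m_PUS m_CPS m_CBN m_WT3

theorem b_LNA : T_LNA := Pool.Agent.H27.LB.pf_LNA k_QNT b_CPU m_SPK m_PUS

theorem b_T43 : T_T43 :=
  Pool.Agent.H67.LB.pf_T43 Pool.Agent.H82.G4.Fin4.k_MAIN Pool.Agent.H94.M4.Chain.k_TEN42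
    (Pool.Agent.H22.G4.BAS.pf_BASx m_SPK m_SPW m_PUX m_PLN)

/-- Lemma B at a node, from the estimate B2 -/
theorem b_LEMN (hB2 : T_B2) : T_LEMN := Pool.Agent.H34.LB.pf_LEMN (b_LEMB2 hB2) b_LNT b_LNA b_T43

end Pool.Agent.H82.LB.Chain
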