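import Pool.Agent.H82.LB.Targets2

/-!
MP_ee74d2_an, dimension 3 (`m = 2`): Lemma B at a node of the chain: the intermediate statements.
-/

set_option autoImplicit false

namespace Pool.Agent.H82.LB

open MeasureTheory Set
open Pool.Agent.H83.G
open Pool.Agent.H82.G4 (aw uk)
open scoped ENNReal NNReal RealInnerProductSpace

/-- LEMB2: Lemma B for arrays, with `δ₁ ≤ ε` -/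
def T_LEMB2 : Prop := ∃ (cb₀ C₁ : ℝ) (L₀ : ℕ), 0 < cb₀ ∧ 1 ≤ C₁ ∧ ∀ L : ℕ, L₀ ≤ L →
  ∀ ε : ℝ, 0 < ε → ∃ δ₁ C : ℝ, 0 < δ₁ ∧ δ₁ ≤ ε ∧ 0 < C ∧
  ∀ (R Λ K ρ M : ℝ) (n : ℕ), 1 ≤ R → 1 ≤ K →
  0 < ρ → 1 ≤ M → (C₁ * K * M) ^ C₁ ≤ Λ → C₁ * K ^ 4 * ρ ≤ 1 → Λ ^ (-(1 / 8) : ℝ) ≤ ρ →
  R ^ δ₁ ≤ n → BdB L (1 / 4) R Λ K ρ M n (C * R ^ ε * Λ ^ (-cb₀))

/-- LNT: the trivial bound -/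
def T_LNT : Prop := ∀ (N : ℕ) (β : E 2 → ℂ), 5 ≤ N → IsPU β → ∃ C : ℝ, 1 ≤ C ∧
  ∀ (κ R K H : ℝ) (n : ℕ) (G : Z 2 → ℂ) (X : Finset (Z 2)), 0 ≤ κ → κ ≤ 1 / 2 → 1 ≤ R → 1 ≤ K →
  0 < H → TC G → (∀ ζ, G ζ ≠ 0 → ζ ∈ Rg 2 κ R⁻¹) → Sep X → (∀ z ∈ X, ¬ Nar β N K n H G z) →
  (X.card : ℝ) * H ^ 2 ≤ C * K ^ 250 * ∫ ζ, ‖G ζ‖ ^ 2

/-- LNA: non-narrow points give a broad array at the corners of the cells -/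
def T_LNA : Prop := ∀ (L N : ℕ) (β : E 2 → ℂ), 5 ≤ L → 5 ≤ N → IsPU β → ∃ C : ℝ, 1 ≤ C ∧
  ∀ (κ R K D A H : ℝ) (n : ℕ) (G : Z 2 → ℂ) (X : Finset (Z 2)), 0 ≤ κ → κ ≤ 1 / 2 → 1 ≤ R →
  1 ≤ K → 1 ≤ D → 0 < A → 0 < H → C * A * R * K ^ 100 ≤ D ^ N * H → Cls L κ R A G → Sep X →
  (∀ z ∈ X, ¬ Nar β N K n H G z) →
  ∃ (I : Finset ((Fin 2 → ℤ) × Zi 2)) (G' : (Fin 2 → ℤ) × Zi 2 → Z 2 → ℂ) (Y : Finset (Z 2)),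
    (I.card : ℝ) ≤ C * D ^ 4 * K ^ 60 ∧ (∀ k ∈ I, ‖ctr (K ^ 6)⁻¹ k.1‖ ≤ 11) ∧
    Arr L κ R (C * A) (K ^ 6)⁻¹ I (fun k => ctr (K ^ 6)⁻¹ k.1) G' ∧ Sep Y ∧
    (X.card : ℝ) ≤ C * K ^ 48 * Y.card ∧
    ∑ k ∈ I, ∫ ζ, ‖G' k ζ‖ ^ 2 ≤ C * D ^ 4 * K ^ 48 * ∫ ζ, ‖G ζ‖ ^ 2 ∧
    ∀ z ∈ Y, Brm K n (H / (C * K ^ 100)) I (fun k => ctr (K ^ 6)⁻¹ k.1) fun k => TF (G' k) z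

end Pool.Agent.H82.LB
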